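import Pool.Agent.H13.HX.TargetsK
import Pool.Agent.H94.HIT.CVC

/-!
# The polynomial identities modulo `P` for the fibres give preimages on the hypersurface
-/

set_option autoImplicit false

open MvPolynomial
open Pool.Agent.H12.ZD (pmap v O Res)
open Pool.Agent.H18.HIT Pool.Agent.H18.HX Pool.Agent.H13.HX
open Pool.Agent.H94.HIT (map_hev hev_eq)

namespace Pool.Agent.H72.HX

theorem pf_CDC : T_CDC := by
  intro N e D k _ _ P₀ F Φ θ ρ Δ R hirr hρ hΔ h
  classical
  have hprime : Prime P₀ := hirr.prime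
  refine ⟨ρ * Δ, ?_, ?_⟩
  · rw [Ideal.mem_span_singleton]
    intro hd
    rcases hprime.dvd_or_dvd hd with h1 | h1
    · exact hρ h1
    · exact hΔ h1
  intro y hyZ hy
  have hP0y : eval y P₀ = 0 := hyZ P₀ (Ideal.mem_span_singleton_self P₀)
  rw [map_mul] at hy
  obtain ⟨hρy, hΔy⟩ := mul_ne_zero_iff.mp hy
  set P : Polynomial k := Φ.map (eval y) with hPdef
  have hmon : P.Monic := h.monic.map _
  have hdeg : P.natDegree = e := by rw [hPdef, h.monic.natDegree_map, h.nat]
  have hsep : P.Separable := by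
    obtain ⟨U, V, W, hUV⟩ := h.sep
    have h1 := congrArg (Polynomial.map (eval y)) hUV
    rw [Polynomial.map_add, Polynomial.map_mul, Polynomial.map_mul, Polynomial.map_add,
      Polynomial.map_mul, Polynomial.map_C, Polynomial.map_C, hP0y, Polynomial.C_0, zero_mul,
      add_zero, ← Polynomial.derivative_map] at h1
    refine ⟨Polynomial.C (eval y ρ)⁻¹ * U.map (eval y), Polynomial.C (eval y ρ)⁻¹ *
      V.map (eval y), ?_⟩
    rw [mul_assoc, mul_assoc, ← mul_add, h1, ← Polynomial.C_mul, inv_mul_cancel₀ hρy,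
      Polynomial.C_1]
  have hcard : P.roots.toFinset.card = e := by
    rw [Multiset.toFinset_card_of_nodup (Polynomial.nodup_roots hsep)]
    have h1 := (IsAlgClosed.splits P).natDegree_eq_card_roots
    rw [← h1, hdeg]
  -- the ring homomorphism
  set ψ : k → (Polynomial (Po (N + 1) k) →+* k) := fun τ =>
    (Polynomial.evalRingHom τ).comp (Polynomial.mapRingHom (eval y)) with hψ
  have hψC : ∀ τ (c : Po (N + 1) k), ψ τ (Polynomial.C c) = eval y c := by
    intro τ c
    simp [hψ]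
  have hψX : ∀ τ, ψ τ Polynomial.X = τ := by
    intro τ
    simp [hψ]
  have hψk : ∀ τ (a : k), ψ τ (algebraMap k (Polynomial (Po (N + 1) k)) a) =
      algebraMap k k a := by
    intro τ a
    have : algebraMap k (Polynomial (Po (N + 1) k)) a = Polynomial.C (C a) := rfl
    rw [this, hψC, eval_C]
    rfl
  set x : k → Fin (N + 1) → k := fun τ i => (eval y Δ)⁻¹ * ψ τ (R i) with hx
  have hR : ∀ τ i, ψ τ (R i) = eval y Δ * x τ i := by
    intro τ i
    rw [hx]
    simp only
    rw [← mul_assoc, mul_inv_cancel₀ hΔy, one_mul]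
  have hval : ∀ τ (q : Po (N + 1) k), q.totalDegree ≤ D →
      ψ τ (hev R (Polynomial.C Δ) D q) = eval y Δ ^ D * eval (x τ) q := by
    intro τ q hq
    rw [map_hev (ψ τ) (hψk τ), hψC]
    rw [show (fun i => ψ τ (R i)) = fun i => eval y Δ * x τ i from funext (hR τ)]
    exact hev_eq _ _ _ _ hq
  have hroot : ∀ τ ∈ P.roots.toFinset, ψ τ Φ = 0 := by
    intro τ hτ
    rw [Multiset.mem_toFinset, Polynomial.mem_roots hmon.ne_zero] at hτ
    exact hτ
  have hkill : ∀ τ ∈ P.roots.toFinset, ∀ A B : Polynomial (Po (N + 1) k),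
      ψ τ (Φ * A + Polynomial.C P₀ * B) = 0 := by
    intro τ hτ A B
    rw [map_add, map_mul, map_mul, hroot τ hτ, hψC, hP0y, zero_mul, zero_mul, add_zero]
  have hDpos : eval y Δ ^ D ≠ 0 := pow_ne_zero _ hΔy
  have hpm : ∀ τ ∈ P.roots.toFinset, pmap F (x τ) = y := by
    intro τ hτ
    funext i
    obtain ⟨A, B, hA⟩ := h.inv i
    have h1 := congrArg (ψ τ) hA
    rw [hkill τ hτ, map_sub, hval τ (F i)
      ((totalDegree_le_deg F i).trans h.degF), hψC, map_mul, map_pow, eval_X, sub_eq_zero] at h1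
    exact mul_left_cancel₀ hDpos h1
  have hth : ∀ τ ∈ P.roots.toFinset, eval (x τ) θ = τ := by
    intro τ hτ
    obtain ⟨A, B, hA⟩ := h.prim
    have h1 := congrArg (ψ τ) hA
    rw [hkill τ hτ, map_sub, hval τ θ h.degθ, map_mul, hψC,
      map_pow, hψX, sub_eq_zero] at h1
    exact mul_left_cancel₀ hDpos h1
  have honX : ∀ τ ∈ P.roots.toFinset, eval (x τ) P₀ = 0 := by
    intro τ hτ
    obtain ⟨A, B, hA⟩ := h.onX
    have h1 := congrArg (ψ τ) hA
    rw [hkill τ hτ, hval τ P₀ h.degP] at h1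
    exact (mul_eq_zero.mp h1).resolve_left hDpos
  refine ⟨P.roots.toFinset.image x, ?_, ?_⟩
  · rw [Finset.card_image_of_injOn, hcard]
    intro τ hτ τ' hτ' hh
    rw [← hth τ hτ, ← hth τ' hτ', hh]
  · intro z hz
    obtain ⟨τ, hτ, rfl⟩ := Finset.mem_image.mp hz
    refine ⟨?_, hpm τ hτ⟩
    intro p hp
    obtain ⟨c, rfl⟩ := Ideal.mem_span_singleton.mp hp
    rw [map_mul, honX τ hτ, zero_mul]

end Pool.Agent.H72.HX
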